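import Pool.Agent.Q282.SH.Mom

/-!
# Sums over the primes of short intervals: the local functions over the rational primes
-/

set_option autoImplicit false
set_option linter.unusedSectionVars false

namespace Q282.SH

open Finset NumberField IsDedekindDomain Filter
open Q282.NF Q282.GK Q282.CL Q282.MN Q282.JB Q282.TP
open Q282.BP (PP bx mem_bx card_bx mean_sum bx_mean mean_mul_period)
open Pool.Agent.TH894.NE (box mem_box card_box Per mean mean_mul mean_mono momentd)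
open Pool.Agent.H921R2.TatePole (below deg nm nm_eq)

/-- high moments over boxes of sums of bounded functions -/
theorem kmom1 {κ : Type} [Fintype κ] [DecidableEq κ] (j : ℕ) (hj : 1 ≤ j) (B : ℝ) (hB : 0 < B) (S : Finset ℕ) (hS : ∀ p ∈ S, p.Prime)
    (Y : ℕ) (hY : ∀ p ∈ S, p ≤ Y) (H : (p : ℕ) → (κ → ZMod p) → ℝ) (hH : ∀ p : ℕ, p.Prime → ∀ u, |H p u| ≤ B)
    (T : ℝ) (hT0 : 0 < T) (hT : 2 * Fintype.card κ * (Y : ℝ) ^ (5 * j) ≤ T) (N : κ → ℤ) (L : κ → ℕ) (hL : ∀ i, T ≤ L i) :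
    ∑ t ∈ kbox N L, (∑ p ∈ S, (H p (fun i => (t i : ZMod p)) - mn H p)) ^ (2 * j) ≤
      (∏ i, (L i : ℝ)) * ((6 * (2 * j).factorial + 1) * ((2 * B) ^ 2 * S.card) ^ j) := by
  classical
  obtain ⟨e⟩ : Nonempty (κ ≃ Fin (Fintype.card κ)) := ⟨Fintype.equivFin κ⟩
  have hL0 : ∀ i, 0 < L i := fun i => by
    have := hT0.trans_le (hL i)
    exact_mod_cast this
  have hmn : ∀ p : ℕ, p.Prime → |mn H p| ≤ B := by
    intro p hp
    have : Fact p.Prime := ⟨hp⟩
    rw [mn_eq]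
    exact abs_av_le_const (hH p hp)
  have h1 := moment1 (d := Fintype.card κ) j hj (2 * B) (by positivity)
    (fun p n => H p (fun i => ((N i + (n (e i) : ℤ) : ℤ) : ZMod p)) - mn H p)
    (fun p hp n => by
      have h2 : H p (fun i => ((N i + (n (e i) : ℤ) : ℤ) : ZMod p)) =
          H p (fun i => ((N i + (((fun i => n i % p) (e i) : ℕ) : ℤ) : ℤ) : ZMod p)) := by
        congr 1
        funext i
        rw [Int.cast_add, Int.cast_add, Int.cast_natCast, Int.cast_natCast, ZMod.natCast_mod]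
      show H p _ - mn H p = H p _ - mn H p
      rw [h2])
    (fun p hp => by
      have : Fact p.Prime := ⟨hp⟩
      rw [mean_av e p N (fun u => H p u - mn H p), av_sub, av_const, ← mn_eq, sub_self])
    (fun p hp n => by
      have h2 := hH p hp (fun i => ((N i + (n (e i) : ℤ) : ℤ) : ZMod p))
      have h3 := hmn p hp
      refine (abs_sub _ _).trans ?_
      linarith)
    S hS Y hY T hT0 hT (fun k => L (e.symm k)) (fun k => hL _)
  have h2 : ∑ t ∈ kbox N L, (∑ p ∈ S, (H p (fun i => (t i : ZMod p)) - mn H p)) ^ (2 * j) =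
      ∑ n ∈ bx (fun k => L (e.symm k)), (∑ p ∈ S, (H p (fun i => ((N i + (n (e i) : ℤ) : ℤ) : ZMod p)) - mn H p)) ^ (2 * j) := by
    rw [← sum_coe_sort (kbox N L) (fun t => (∑ p ∈ S, (H p (fun i => (t i : ZMod p)) - mn H p)) ^ (2 * j)),
      ← sum_coe_sort (bx (fun k => L (e.symm k))) (fun n => (∑ p ∈ S, (H p (fun i => ((N i + (n (e i) : ℤ) : ℤ) : ZMod p)) - mn H p)) ^ (2 * j))]
    symm
    exact Fintype.sum_equiv (kequiv e N L) _ _ fun n => rfl
  have h3 : ∏ i, (L i : ℝ) = ∏ k : Fin (Fintype.card κ), (L (e.symm k) : ℝ) :=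
    Fintype.prod_equiv e _ _ fun k => by rw [Equiv.symm_apply_apply]
  rw [h2, h3]
  exact h1

section

variable {K : Type} [Field K] [NumberField K] {ι : Type} [Fintype ι] [DecidableEq ι] {B : ℝ}
  {val : HeightOneSpectrum (𝓞 K) → (ι → 𝓞 K) → ℝ} {d : ℕ}

/-- the norm on the interval `(X, X']` -/
noncomputable def cN (X X' n : ℕ) : ℝ := if X < n ∧ n ≤ X' then n else 0

/-- the primes of an interval -/
noncomputable def IV (K : Type) [Field K] [NumberField K] (X X' : ℕ) : Finset (HeightOneSpectrum (𝓞 K)) :=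
  (SX K X').filter fun v => X < Ideal.absNorm v.asIdeal

/-- the rational primes below the primes of an interval -/
noncomputable def IS (K : Type) [Field K] [NumberField K] (X X' : ℕ) : Finset ℕ := (IV K X X').image fun v => (below v : ℕ)

lemma mem_IV {X X' : ℕ} {v : HeightOneSpectrum (𝓞 K)} : v ∈ IV K X X' ↔ X < Ideal.absNorm v.asIdeal ∧ Ideal.absNorm v.asIdeal ≤ X' := by
  unfold IV
  rw [mem_filter, mem_SX, and_comm]

lemma IS_card (X X' : ℕ) : (IS K X X').card ≤ (IV K X X').card := card_image_le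

lemma IS_sub (X X' : ℕ) : IS K X X' ⊆ PP X' := by
  intro p hp
  unfold IS at hp
  rw [mem_image] at hp
  obtain ⟨v, hv, rfl⟩ := hp
  rw [mem_IV] at hv
  unfold BP.PP
  rw [mem_filter, mem_Icc]
  have h1 := hv.2
  rw [norm_eq] at h1
  exact ⟨⟨(below v).prop.one_lt.le, (Nat.le_self_pow (nm_eq v).2.1.ne' _).trans h1⟩, (below v).prop⟩

lemma S_le (h : LocZ K ι B val) (hB : 0 ≤ B) (b : Fin d → 𝓞 K) (X X' : ℕ) (p : ℕ) (hp : p.Prime) (u : ι × Fin d → ZMod p) :
    |Hw val b (cN X X') p u| ≤ Module.finrank ℚ K * B := by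
  obtain ⟨P, hP⟩ : ∃ P : Nat.Primes, (P : ℕ) = p := ⟨⟨p, hp⟩, rfl⟩
  subst hP
  rw [Hw_eq]
  refine (abs_sum_le_sum_abs _ _).trans ?_
  have h1 : ∀ v : {v : HeightOneSpectrum (𝓞 K) // below v = P}, |cN X X' (Ideal.absNorm v.1.asIdeal) * vl val b v.1 P u| ≤ B := by
    rintro ⟨v, hv⟩
    show |cN X X' (Ideal.absNorm v.asIdeal) * vl val b v P u| ≤ _
    unfold cN
    split_ifs with h3
    · have h4 : (0 : ℝ) < Ideal.absNorm v.asIdeal := by
        have := two_le v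
        linarith
      rw [abs_mul, abs_of_pos h4]
      have h5 : |vl val b v P u| ≤ B / Ideal.absNorm v.asIdeal := z_le h v _
      rw [le_div_iff₀ h4] at h5
      linarith
    · rw [zero_mul, abs_zero]
      exact hB
  refine (sum_le_sum fun v _ => h1 v).trans ?_
  rw [sum_const, card_univ, nsmul_eq_mul]
  exact mul_le_mul_of_nonneg_right (fib_card P) hB

lemma S_zero (b : Fin d → 𝓞 K) (X X' : ℕ) (p : ℕ) (hp : p ∉ IS K X X') (u : ι × Fin d → ZMod p) :
    Hw val b (cN X X') p u = 0 := by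
  by_cases hpp : p.Prime
  · obtain ⟨P, hP⟩ : ∃ P : Nat.Primes, (P : ℕ) = p := ⟨⟨p, hpp⟩, rfl⟩
    subst hP
    rw [Hw_eq]
    refine sum_eq_zero ?_
    rintro ⟨v, hv⟩ _
    show cN X X' (Ideal.absNorm v.asIdeal) * vl val b v P u = 0
    unfold cN
    rw [if_neg, zero_mul]
    intro h3
    refine hp ?_
    unfold IS
    rw [mem_image]
    exact ⟨v, mem_IV.2 h3, by rw [hv]⟩
  · unfold Hw
    rw [dif_neg hpp]

/-- the sum over the interval -/
lemma S_sum (h : LocZ K ι B val) (b : Fin d → 𝓞 K) (X X' : ℕ) (n : ι × Fin d → ℤ) :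
    ∑ v ∈ IV K X X', (Ideal.absNorm v.asIdeal : ℝ) * val v (comb b n) = ∑ p ∈ IS K X X', Hw val b (cN X X') p (fun k => (n k : ZMod p)) := by
  classical
  have h1 := z_sum h b (cN X X') X' (fun m hm => by
    unfold cN
    rw [if_neg]
    intro h3
    exact absurd h3.2 (not_le.2 hm)) n
  have h2 : ∑ v ∈ SX K X', cN X X' (Ideal.absNorm v.asIdeal) * val v (comb b n) =
      ∑ v ∈ IV K X X', (Ideal.absNorm v.asIdeal : ℝ) * val v (comb b n) := by
    unfold IV
    rw [sum_filter]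
    refine sum_congr rfl fun v hv => ?_
    rw [mem_SX] at hv
    unfold cN
    by_cases h3 : X < Ideal.absNorm v.asIdeal
    · rw [if_pos ⟨h3, hv⟩, if_pos h3]
    · rw [if_neg (fun h4 => h3 h4.1), if_neg h3, zero_mul]
  rw [← h2, h1]
  symm
  refine sum_subset (IS_sub X X') ?_
  intro p _ hp
  exact S_zero b X X' p hp _

lemma S_mean_one (h : LocZ K ι B val) (hB : 0 ≤ B) (b : Fin d → 𝓞 K) (hb : ∀ x : 𝓞 K, ∃ a : Fin d → ℤ, x = ∑ j, (a j : 𝓞 K) * b j)
    (X X' p : ℕ) (hp : p.Prime) :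
    |mn (Hw val b (cN X X')) p| ≤ ∑ v ∈ (IV K X X').filter (fun v => (below v : ℕ) = p), B / Real.sqrt (Ideal.absNorm v.asIdeal) := by
  classical
  have : Fact p.Prime := ⟨hp⟩
  obtain ⟨P, hP⟩ : ∃ P : Nat.Primes, (P : ℕ) = p := ⟨⟨p, hp⟩, rfl⟩
  subst hP
  rw [mn_eq]
  have e1 : Hw val b (cN X X') (P : ℕ) = fun u => ∑ v : {v : HeightOneSpectrum (𝓞 K) // below v = P}, cN X X' (Ideal.absNorm v.1.asIdeal) * vl val b v.1 P u := by
    funext u
    exact Hw_eq b _ P u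
  rw [e1, av_sum]
  refine (abs_sum_le_sum_abs _ _).trans ?_
  have h2 : ∀ v : {v : HeightOneSpectrum (𝓞 K) // below v = P}, |av (fun u => cN X X' (Ideal.absNorm v.1.asIdeal) * vl val b v.1 P u)| ≤
      if v.1 ∈ IV K X X' then B / Real.sqrt (Ideal.absNorm v.1.asIdeal) else 0 := by
    rintro ⟨v, hv⟩
    show |av (fun u => cN X X' (Ideal.absNorm v.asIdeal) * vl val b v P u)| ≤ if v ∈ IV K X X' then B / Real.sqrt (Ideal.absNorm v.asIdeal) else 0
    rw [av_mul]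
    have h4 : (0 : ℝ) < Ideal.absNorm v.asIdeal := by
      have := two_le v
      linarith
    have hs : 0 < Real.sqrt (Ideal.absNorm v.asIdeal) := Real.sqrt_pos.2 h4
    unfold cN
    by_cases h3 : X < Ideal.absNorm v.asIdeal ∧ Ideal.absNorm v.asIdeal ≤ X'
    · rw [if_pos h3, if_pos (mem_IV.2 h3)]
      have h5 := z_mean h b hb v P (by rw [hv])
      rw [Q282.CL.rpow_sqrt] at h5
      rw [abs_mul, abs_of_pos h4]
      have h6 : (Ideal.absNorm v.asIdeal : ℝ) = Real.sqrt (Ideal.absNorm v.asIdeal) ^ 2 := (Real.sq_sqrt h4.le).symm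
      calc (Ideal.absNorm v.asIdeal : ℝ) * |av (vl val b v P)| ≤ (Ideal.absNorm v.asIdeal : ℝ) * (B / Real.sqrt (Ideal.absNorm v.asIdeal) ^ 3) :=
            mul_le_mul_of_nonneg_left h5 h4.le
        _ = Real.sqrt (Ideal.absNorm v.asIdeal) ^ 2 * (B / Real.sqrt (Ideal.absNorm v.asIdeal) ^ 3) := by rw [← h6]
        _ = B / Real.sqrt (Ideal.absNorm v.asIdeal) := by field_simp
    · rw [if_neg h3, if_neg (fun h5 => h3 (mem_IV.1 h5)), zero_mul, abs_zero]
  refine (sum_le_sum fun v _ => h2 v).trans (le_of_eq ?_)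
  rw [← sum_filter]
  refine sum_bij (fun v _ => v.1) ?_ ?_ ?_ ?_
  · rintro ⟨v, hv⟩ h3
    rw [mem_filter] at h3 ⊢
    exact ⟨h3.2, by rw [hv]⟩
  · rintro ⟨v, _⟩ _ ⟨w, _⟩ _ h3
    exact Subtype.ext h3
  · intro v hv
    rw [mem_filter] at hv
    refine ⟨⟨v, Subtype.ext hv.2⟩, ?_, rfl⟩
    rw [mem_filter]
    exact ⟨mem_univ _, hv.1⟩
  · intro v _
    rfl

/-- the mean value of the sum over the interval -/
theorem S_mean (h : LocZ K ι B val) (hB : 0 ≤ B) (b : Fin d → 𝓞 K) (hb : ∀ x : 𝓞 K, ∃ a : Fin d → ℤ, x = ∑ j, (a j : 𝓞 K) * b j)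
    (X X' : ℕ) (M : ℝ) (hM : ∑ v ∈ SX K X', 1 / (Ideal.absNorm v.asIdeal : ℝ) ≤ M) :
    |∑ p ∈ IS K X X', mn (Hw val b (cN X X')) p| ≤ B * (Real.sqrt (IV K X X').card * Real.sqrt M) := by
  classical
  have h1 : |∑ p ∈ IS K X X', mn (Hw val b (cN X X')) p| ≤ ∑ v ∈ IV K X X', B / Real.sqrt (Ideal.absNorm v.asIdeal) := by
    refine (abs_sum_le_sum_abs _ _).trans ?_
    refine (sum_le_sum fun p hp => S_mean_one h hB b hb X X' p ?_).trans (le_of_eq ?_)
    · exact (mem_filter.1 (IS_sub X X' hp)).2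
    · exact sum_fiberwise_of_maps_to (fun v hv => mem_image_of_mem _ hv) _
  refine h1.trans ?_
  have h2 : ∑ v ∈ IV K X X', B / Real.sqrt (Ideal.absNorm v.asIdeal) = B * ∑ v ∈ IV K X X', 1 * (1 / Real.sqrt (Ideal.absNorm v.asIdeal)) := by
    rw [mul_sum]
    exact sum_congr rfl fun v _ => by ring
  rw [h2]
  refine mul_le_mul_of_nonneg_left ?_ hB
  refine (Real.sum_mul_le_sqrt_mul_sqrt _ _ _).trans ?_
  have h3 : ∑ v ∈ IV K X X', ((1 : ℝ)) ^ 2 = (IV K X X').card := by simp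
  rw [h3]
  refine mul_le_mul_of_nonneg_left (Real.sqrt_le_sqrt ?_) (Real.sqrt_nonneg _)
  refine le_trans ?_ hM
  have h4 : ∀ v : HeightOneSpectrum (𝓞 K), (1 / Real.sqrt (Ideal.absNorm v.asIdeal)) ^ 2 = 1 / (Ideal.absNorm v.asIdeal : ℝ) := by
    intro v
    rw [div_pow, one_pow, Real.sq_sqrt (by positivity)]
  rw [sum_congr rfl fun v _ => h4 v]
  refine sum_le_sum_of_subset_of_nonneg (filter_subset _ _) fun v _ _ => by positivity

end

end Q282.SH
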