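import Pool.Agent.Q282.BP.Mom
import Pool.Agent.Q282.TC.Main

/-!
# Moments of sums over the primes of short intervals over boxes
-/

set_option autoImplicit false
set_option linter.unusedSectionVars false

namespace Q282.SH

open Finset NumberField IsDedekindDomain Filter
open Q282.NF Q282.GK Q282.CL Q282.MN Q282.JB Q282.TP
open Q282.BP (PP bx mem_bx card_bx mean_sum bx_mean mean_mul_period)
open Pool.Agent.TH894.NE (box mem_box card_box Per mean mean_mul mean_mono momentd)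
open Pool.Agent.H921R2.TatePole (below deg nm nm_eq)

/-- the moments of a sum of bounded functions of the residues -/
theorem moment1 {d : ℕ} (j : ℕ) (_hj : 1 ≤ j) (B : ℝ) (hB : 0 < B) (g : ℕ → (Fin d → ℕ) → ℝ)
    (hg : ∀ p : ℕ, p.Prime → Per p (g p)) (hg0 : ∀ p : ℕ, p.Prime → mean d p (g p) = 0)
    (hgB : ∀ p : ℕ, p.Prime → ∀ n, |g p n| ≤ B)
    (S : Finset ℕ) (hS : ∀ p ∈ S, p.Prime) (Y : ℕ) (hY : ∀ p ∈ S, p ≤ Y) (T : ℝ) (hT0 : 0 < T)
    (hT : 2 * d * (Y : ℝ) ^ (5 * j) ≤ T) (L : Fin d → ℕ) (hL : ∀ i, T ≤ L i) :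
    ∑ n ∈ bx L, (∑ p ∈ S, g p n) ^ (2 * j) ≤
      (∏ i, (L i : ℝ)) * ((6 * (2 * j).factorial + 1) * (B ^ 2 * S.card) ^ j) := by
  classical
  have hL0 : ∀ i, (0 : ℝ) < L i := fun i => hT0.trans_le (hL i)
  have hP0 : 0 < ∏ i, (L i : ℝ) := prod_pos fun i _ => hL0 i
  rcases S.eq_empty_or_nonempty with hSe | hSn
  · subst hSe
    simp only [sum_empty]
    rw [zero_pow (by omega), sum_const_zero, card_empty, Nat.cast_zero, mul_zero, zero_pow (by omega), mul_zero, mul_zero]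
  obtain ⟨V, hV⟩ : ∃ V : ℝ, V = B ^ 2 * S.card := ⟨_, rfl⟩
  have hVB : B ^ 2 ≤ V := by
    rw [hV]
    refine le_mul_of_one_le_right (by positivity) ?_
    exact_mod_cast hSn.card_pos
  obtain ⟨p₀, hp₀⟩ := hSn
  have hp₀0 : (0 : ℝ) < p₀ := by exact_mod_cast (hS p₀ hp₀).pos
  have hV0 : 0 < V := lt_of_lt_of_le (by positivity) hVB
  have hY0 : (0 : ℝ) < Y := lt_of_lt_of_le hp₀0 (by exact_mod_cast hY p₀ hp₀)
  have hY1 : 1 ≤ Y := (hS p₀ hp₀).one_lt.le.trans (hY p₀ hp₀)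
  have hsV : 0 < Real.sqrt V := Real.sqrt_pos.2 hV0
  obtain ⟨Q, hQ⟩ : ∃ Q : ℕ, Q = ∏ p ∈ S, p := ⟨_, rfl⟩
  have hQ0 : 0 < Q := by
    rw [hQ]
    exact prod_pos fun p hp => (hS p hp).pos
  -- the moment for independent variables
  have h1 : mean d Q (fun n => (∑ p ∈ S, g p n) ^ (2 * j)) ≤ 6 * (2 * j).factorial * V ^ j := by
    have h2 := momentd (d := d) S (fun p => p) (fun p hp => (hS p hp).one_lt.le)
      (fun p hp p' hp' hne => (Nat.coprime_primes (hS p hp) (hS p' hp')).2 hne)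
      (fun p n => 1 / Real.sqrt V * g p n)
      (fun p hp n => by
        show 1 / Real.sqrt V * g p n = 1 / Real.sqrt V * g p (fun i => n i % p)
        rw [← hg p (hS p hp) n])
      (fun p hp n => by
        show |1 / Real.sqrt V * g p n| ≤ 1
        rw [abs_mul, abs_of_pos (by positivity : 0 < 1 / Real.sqrt V), one_div, inv_mul_le_iff₀ hsV, mul_one]
        refine (hgB p (hS p hp) n).trans ?_
        rw [← Real.sqrt_sq hB.le]
        exact Real.sqrt_le_sqrt hVB)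
      (fun p hp => by
        show mean d p (fun n => 1 / Real.sqrt V * g p n) = 0
        rw [mean_mul, hg0 p (hS p hp), mul_zero])
      1 le_rfl
      (by
        have h3 : ∀ p ∈ S, mean d p (fun n => (1 / Real.sqrt V * g p n) ^ 2) ≤ B ^ 2 / V := by
          intro p hp
          refine le_trans (mean_mono (G := fun _ => B ^ 2 / V) fun n => ?_)
            (Pool.Agent.TH894.NE.mean_const d p (hS p hp).one_lt.le _).le
          have h4 : (1 / Real.sqrt V * g p n) ^ 2 = |g p n| ^ 2 / V := by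
            rw [mul_pow, div_pow, one_pow, Real.sq_sqrt hV0.le, sq_abs]
            ring
          rw [h4]
          refine div_le_div_of_nonneg_right ?_ hV0.le
          exact pow_le_pow_left₀ (abs_nonneg _) (hgB p (hS p hp) n) 2
        refine (sum_le_sum h3).trans (le_of_eq ?_)
        rw [sum_const, nsmul_eq_mul, mul_div_assoc', mul_comm, ← hV, div_self hV0.ne'])
      j
    rw [one_pow, mul_one, ← hQ] at h2
    have h3 : (fun n : Fin d → ℕ => (∑ p ∈ S, 1 / Real.sqrt V * g p n) ^ (2 * j)) =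
        fun n => 1 / V ^ j * (∑ p ∈ S, g p n) ^ (2 * j) := by
      funext n
      rw [← mul_sum, mul_pow, div_pow, one_pow, pow_mul, Real.sq_sqrt hV0.le]
    rw [h3, mean_mul, one_div, inv_mul_le_iff₀ (by positivity)] at h2
    linarith
  -- expansion
  obtain ⟨TT, hTT⟩ : ∃ TT : Finset (Fin (2 * j) → ℕ), TT = Fintype.piFinset fun _ : Fin (2 * j) => S := ⟨_, rfl⟩
  have hexp : ∀ n, (∑ p ∈ S, g p n) ^ (2 * j) = ∑ τ ∈ TT, ∏ k, g (τ k) n := by
    intro n
    have h2 := prod_univ_sum (fun _ : Fin (2 * j) => S) (fun _ p => g p n)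
    rw [prod_const, card_univ, Fintype.card_fin] at h2
    rw [hTT, h2]
  have hmemT : ∀ τ ∈ TT, ∀ k, τ k ∈ S := by
    intro τ hτ k
    rw [hTT, Fintype.mem_piFinset] at hτ
    exact hτ k
  have hterm : ∀ τ ∈ TT, |∑ n ∈ bx L, ∏ k, g (τ k) n - (∏ i, (L i : ℝ)) * mean d Q (fun n => ∏ k, g (τ k) n)| ≤
      (∏ i, (L i : ℝ)) * (B ^ (2 * j) * (2 * (d * (Y : ℝ) ^ (2 * j) / T))) := by
    intro τ hτ
    obtain ⟨q, hq⟩ : ∃ q : ℕ, q = ∏ k, τ k := ⟨_, rfl⟩
    have hq0 : 0 < q := by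
      rw [hq]
      exact prod_pos fun k _ => (hS _ (hmemT τ hτ k)).pos
    have hper : Per q (fun n => ∏ k, g (τ k) n) := by
      intro n
      refine prod_congr rfl fun k _ => ?_
      exact (hg _ (hS _ (hmemT τ hτ k))).of_dvd (by rw [hq]; exact dvd_prod_of_mem τ (mem_univ k)) n
    have hperQ : Per Q (fun n => ∏ k, g (τ k) n) := by
      intro n
      refine prod_congr rfl fun k _ => ?_
      exact (hg _ (hS _ (hmemT τ hτ k))).of_dvd (by rw [hQ]; exact dvd_prod_of_mem (fun p => p) (hmemT τ hτ k)) n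
    have hmean : mean d q (fun n => ∏ k, g (τ k) n) = mean d Q (fun n => ∏ k, g (τ k) n) := by
      rw [← mean_mul_period hq0 Q hQ0 _ hper, mul_comm, mean_mul_period hQ0 q hq0 _ hperQ]
    have hM : ∀ n, |∏ k, g (τ k) n| ≤ B ^ (2 * j) := by
      intro n
      rw [abs_prod]
      calc ∏ k, |g (τ k) n| ≤ ∏ _k : Fin (2 * j), B := by
            refine prod_le_prod (fun k _ => abs_nonneg _) fun k _ => ?_
            exact hgB _ (hS _ (hmemT τ hτ k)) n
        _ = B ^ (2 * j) := by rw [prod_const, card_univ, Fintype.card_fin]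
    have h5 := bx_mean hq0 L T hT0 hL _ hper (B ^ (2 * j)) hM
    rw [hmean] at h5
    refine h5.trans ?_
    refine mul_le_mul_of_nonneg_left (mul_le_mul_of_nonneg_left ?_ (by positivity)) hP0.le
    have hqY : (q : ℝ) ≤ (Y : ℝ) ^ (2 * j) := by
      have : q ≤ Y ^ (2 * j) := by
        rw [hq]
        calc ∏ k, τ k ≤ ∏ _k : Fin (2 * j), Y := prod_le_prod' fun k _ => hY _ (hmemT τ hτ k)
          _ = Y ^ (2 * j) := by rw [prod_const, card_univ, Fintype.card_fin]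
      exact_mod_cast this
    have h6 : (d : ℝ) * q / T ≤ d * (Y : ℝ) ^ (2 * j) / T :=
      div_le_div_of_nonneg_right (mul_le_mul_of_nonneg_left hqY (Nat.cast_nonneg _)) hT0.le
    have h7 : (d : ℝ) * q / T ≤ 1 := by
      refine h6.trans ?_
      rw [div_le_one hT0]
      have h8 : (Y : ℝ) ^ (2 * j) ≤ (Y : ℝ) ^ (5 * j) := pow_le_pow_right₀ (by exact_mod_cast hY1) (by omega)
      have h9 := mul_le_mul_of_nonneg_left h8 (Nat.cast_nonneg (α := ℝ) d)
      have h10 : 0 ≤ (d : ℝ) * (Y : ℝ) ^ (5 * j) := by positivity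
      linarith
    have h8 : 0 ≤ (d : ℝ) * q / T := by positivity
    have h9 := Real.abs_exp_sub_one_le (x := (d : ℝ) * q / T) (by rw [abs_of_nonneg h8]; exact h7)
    rw [abs_of_nonneg h8] at h9
    exact (le_abs_self _).trans (h9.trans (by linarith))
  have hsum : ∑ n ∈ bx L, (∑ p ∈ S, g p n) ^ (2 * j) = ∑ τ ∈ TT, ∑ n ∈ bx L, ∏ k, g (τ k) n := by
    rw [sum_congr rfl fun n _ => hexp n, sum_comm]
  have hmsum : mean d Q (fun n => (∑ p ∈ S, g p n) ^ (2 * j)) = ∑ τ ∈ TT, mean d Q (fun n => ∏ k, g (τ k) n) := by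
    rw [← mean_sum]
    congr 1
    funext n
    exact hexp n
  have h2 : ∑ n ∈ bx L, (∑ p ∈ S, g p n) ^ (2 * j) ≤ (∏ i, (L i : ℝ)) * mean d Q (fun n => (∑ p ∈ S, g p n) ^ (2 * j)) +
      TT.card * ((∏ i, (L i : ℝ)) * (B ^ (2 * j) * (2 * (d * (Y : ℝ) ^ (2 * j) / T)))) := by
    rw [hsum, hmsum, mul_sum, ← nsmul_eq_mul, ← sum_const, ← sum_add_distrib]
    refine sum_le_sum fun τ hτ => ?_
    have := (abs_le.1 (hterm τ hτ)).2
    linarith
  have hcard : (TT.card : ℝ) ≤ (Y : ℝ) ^ (2 * j) := by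
    have h3 : S.card ≤ Y := by
      calc S.card ≤ (Icc 1 Y).card := by
            refine card_le_card fun p hp => ?_
            rw [mem_Icc]
            exact ⟨(hS p hp).one_lt.le, hY p hp⟩
        _ = Y := by rw [Nat.card_Icc, Nat.add_sub_cancel]
    have h4 : TT.card = S.card ^ (2 * j) := by
      rw [hTT, Fintype.card_piFinset_const]
    rw [h4]
    push_cast
    exact pow_le_pow_left₀ (Nat.cast_nonneg _) (by exact_mod_cast h3) _
  have h3 : TT.card * ((∏ i, (L i : ℝ)) * (B ^ (2 * j) * (2 * (d * (Y : ℝ) ^ (2 * j) / T)))) ≤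
      (∏ i, (L i : ℝ)) * V ^ j := by
    have h4 : TT.card * ((∏ i, (L i : ℝ)) * (B ^ (2 * j) * (2 * (d * (Y : ℝ) ^ (2 * j) / T)))) ≤
        (Y : ℝ) ^ (2 * j) * ((∏ i, (L i : ℝ)) * (B ^ (2 * j) * (2 * (d * (Y : ℝ) ^ (2 * j) / T)))) :=
      mul_le_mul_of_nonneg_right hcard (by positivity)
    refine h4.trans ?_
    have h5 : (Y : ℝ) ^ (2 * j) * ((∏ i, (L i : ℝ)) * (B ^ (2 * j) * (2 * (d * (Y : ℝ) ^ (2 * j) / T)))) =
        (∏ i, (L i : ℝ)) * (B ^ (2 * j) * ((2 * d * (Y : ℝ) ^ (4 * j)) / T)) := by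
      rw [show 4 * j = 2 * j + 2 * j by ring, pow_add]
      ring
    rw [h5]
    refine mul_le_mul_of_nonneg_left ?_ hP0.le
    have h6 : (2 * d * (Y : ℝ) ^ (4 * j)) / T ≤ 1 := by
      rw [div_le_one hT0]
      refine le_trans ?_ hT
      exact mul_le_mul_of_nonneg_left (pow_le_pow_right₀ (by exact_mod_cast hY1) (by omega)) (by positivity)
    calc B ^ (2 * j) * ((2 * d * (Y : ℝ) ^ (4 * j)) / T) ≤ B ^ (2 * j) * 1 :=
          mul_le_mul_of_nonneg_left h6 (by positivity)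
      _ = (B ^ 2) ^ j := by rw [mul_one, pow_mul]
      _ ≤ V ^ j := pow_le_pow_left₀ (by positivity) hVB _
  have h4 := mul_le_mul_of_nonneg_left h1 hP0.le
  rw [← hV]
  calc ∑ n ∈ bx L, (∑ p ∈ S, g p n) ^ (2 * j) ≤ _ := h2
    _ ≤ (∏ i, (L i : ℝ)) * (6 * (2 * j).factorial * V ^ j) + (∏ i, (L i : ℝ)) * V ^ j := add_le_add h4 h3
    _ = _ := by ring



end Q282.SH
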