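import Pool.Agent.Q282.SH.Loc

/-!
# Square-root cancellation in all short intervals
-/

set_option autoImplicit false
set_option linter.unusedSectionVars false
set_option linter.unusedVariables false

namespace Q282.SH

open Finset NumberField IsDedekindDomain Filter
open Q282.NF Q282.GK Q282.CL Q282.MN Q282.JB Q282.TP
open Q282.BP (PP bx mem_bx card_bx mean_sum bx_mean mean_mul_period)
open Pool.Agent.H921R2.TatePole (below deg nm nm_eq)

/-- the sum of the inverses of the norms -/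
lemma inv_le (K : Type) [Field K] [NumberField K] : ∃ M : ℝ, 0 ≤ M ∧ ∀ X : ℕ, 3 ≤ X →
    ∑ v ∈ SX K X, 1 / (Ideal.absNorm v.asIdeal : ℝ) ≤ Real.log X + M := by
  obtain ⟨M, hM0, hM⟩ := inv_sum K
  refine ⟨M, hM0, fun X hX => ?_⟩
  have h1 := (abs_le.1 (hM X hX)).2
  have hX3 : (3 : ℝ) ≤ X := by exact_mod_cast hX
  have h2 : ∑ v ∈ SX K X, 1 / (Ideal.absNorm v.asIdeal : ℝ) ≤ ∑ v ∈ SX K X, zv v := by
    refine sum_le_sum fun v _ => ?_
    have h3 := two_le v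
    unfold zv
    have h4 : (1 : ℝ) / Ideal.absNorm v.asIdeal ≤ 1 / 2 := one_div_le_one_div_of_le (by norm_num) h3
    have h5 := Real.log_le_sub_one_of_pos (x := 1 - 1 / (Ideal.absNorm v.asIdeal : ℝ)) (by linarith)
    linarith
  have h3 : Real.log (Real.log X) ≤ Real.log X := by
    have h4 : 0 < Real.log X := Real.log_pos (by linarith)
    have := Real.log_le_sub_one_of_pos h4
    linarith
  linarith

lemma asym (B M ε : ℝ) (hε : 0 < ε) : ∃ X₁ : ℕ, 3 ≤ X₁ ∧ ∀ X : ℕ, X₁ ≤ X → B * Real.sqrt (Real.log X + M) ≤ (X : ℝ) ^ ε / 4 := by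
  have h1 : (fun x : ℝ => 16 * B ^ 2 * (Real.log x + M)) =o[atTop] fun x : ℝ => x ^ (2 * ε) := by
    refine Asymptotics.IsLittleO.const_mul_left ?_ _
    refine (isLittleO_log_rpow_atTop (by linarith)).add ?_
    refine Asymptotics.isLittleO_const_left.2 (Or.inr ?_)
    exact tendsto_norm_atTop_atTop.comp (tendsto_rpow_atTop (by linarith))
  have h2 := (h1.bound one_pos)
  have h3 : ∀ᶠ X : ℕ in atTop, ‖16 * B ^ 2 * (Real.log (X : ℝ) + M)‖ ≤ 1 * ‖(X : ℝ) ^ (2 * ε)‖ :=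
    tendsto_natCast_atTop_atTop.eventually h2
  obtain ⟨X₁, hX₁⟩ := eventually_atTop.1 h3
  refine ⟨max X₁ 3, le_max_right _ _, fun X hX => ?_⟩
  have h4 := hX₁ X ((le_max_left _ _).trans hX)
  have hX3 : 3 ≤ X := (le_max_right _ _).trans hX
  have hX0 : (0 : ℝ) < X := by exact_mod_cast (by omega : 0 < X)
  have hp : 0 < (X : ℝ) ^ ε := Real.rpow_pos_of_pos hX0 _
  rw [one_mul, Real.norm_eq_abs, Real.norm_eq_abs, abs_of_pos (Real.rpow_pos_of_pos hX0 (2 * ε))] at h4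
  have h5 : (X : ℝ) ^ (2 * ε) = ((X : ℝ) ^ ε) ^ 2 := by
    rw [← Real.rpow_natCast, ← Real.rpow_mul hX0.le]
    congr 1
    push_cast
    ring
  rw [h5] at h4
  have h6 := (le_abs_self _).trans h4
  refine (le_abs_self _).trans ?_
  rw [abs_mul, abs_of_nonneg (Real.sqrt_nonneg _)]
  by_cases h7 : 0 ≤ Real.log X + M
  · refine abs_le_of_sq_le_sq' ?_ (by positivity) |>.2
    rw [mul_pow, sq_abs, Real.sq_sqrt h7, div_pow]
    linarith
  · rw [Real.sqrt_eq_zero_of_nonpos (by linarith), mul_zero]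
    positivity

/-- the exceptions for one interval and one weight -/
theorem bad_one (K : Type) [Field K] [NumberField K] (ι : Type) [Fintype ι] [DecidableEq ι] (B ε : ℝ) (hB : 0 < B) (hε : 0 < ε)
    (k : ℕ) (hk : 1 ≤ k) :
    ∃ X₁ : ℕ, 3 ≤ X₁ ∧ ∃ C : ℝ, 0 ≤ C ∧ ∀ (b : Fin (Module.finrank ℚ K) → 𝓞 K), (∀ x : 𝓞 K, ∃ a : Fin (Module.finrank ℚ K) → ℤ, x = ∑ j, (a j : 𝓞 K) * b j) →
    ∀ val : HeightOneSpectrum (𝓞 K) → (ι → 𝓞 K) → ℝ, LocZ K ι B val → ∀ w : HeightOneSpectrum (𝓞 K) → ℝ, (∀ v, |w v| ≤ 1) →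
    ∀ X X' : ℕ, X₁ ≤ X' → ∀ T : ℝ, 0 < T → 2 * Fintype.card (ι × Fin (Module.finrank ℚ K)) * (X' : ℝ) ^ (5 * k) ≤ T →
    ∀ (N : ι × Fin (Module.finrank ℚ K) → ℤ) (L : ι × Fin (Module.finrank ℚ K) → ℕ), (∀ i, T ≤ L i) →
    ∀ E : Finset (ι × Fin (Module.finrank ℚ K) → ℤ), E ⊆ kbox N L →
      (∀ n ∈ E, Real.sqrt (1 + (IV K X X').card) * (X' : ℝ) ^ ε / 2 < |∑ v ∈ IV K X X', w v * ((Ideal.absNorm v.asIdeal : ℝ) * val v (comb b n))|) →
      (E.card : ℝ) ≤ C * (X' : ℝ) ^ (-(2 * k * ε)) * ∏ i, (L i : ℝ) := by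
  classical
  obtain ⟨M, hM0, hM⟩ := inv_le K
  obtain ⟨X₁, hX₁3, hX₁⟩ := asym B M ε hε
  have hd : (0 : ℝ) < Module.finrank ℚ K := by exact_mod_cast Module.finrank_pos
  refine ⟨X₁, hX₁3, ((6 * (2 * k).factorial + 1) * (2 * (Module.finrank ℚ K * B)) ^ (2 * k)) * 16 ^ k, by positivity,
    fun b hb val hval w hw X X' hX' T hT0 hT N L hL E hE hEZ => ?_⟩
  obtain ⟨D, hD⟩ : ∃ D : ℝ, D = (IV K X X').card := ⟨_, rfl⟩
  have hD0 : 0 ≤ D := by rw [hD]; positivity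
  have hval' : LocZ K ι B (fun v t => w v * val v t) := TC.locZ_weight hval w hw
  have hX0 : (0 : ℝ) < X' := by exact_mod_cast (by omega : 0 < X')
  have hpow : 0 < (X' : ℝ) ^ ε := Real.rpow_pos_of_pos hX0 _
  have hs1 : 0 < Real.sqrt (1 + D) := Real.sqrt_pos.2 (by linarith)
  obtain ⟨H, hH⟩ : ∃ H : (p : ℕ) → (ι × Fin (Module.finrank ℚ K) → ZMod p) → ℝ, H = Hw (fun v t => w v * val v t) b (cN X X') := ⟨_, rfl⟩
  have hmean : |∑ p ∈ IS K X X', mn H p| ≤ Real.sqrt (1 + D) * (X' : ℝ) ^ ε / 4 := by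
    rw [hH]
    refine (S_mean hval' hB.le b hb X X' _ (hM X' (hX₁3.trans hX'))).trans ?_
    have h1 := hX₁ X' hX'
    have h2 : Real.sqrt (IV K X X').card ≤ Real.sqrt (1 + D) := Real.sqrt_le_sqrt (by rw [hD]; linarith)
    calc B * (Real.sqrt (IV K X X').card * Real.sqrt (Real.log X' + M)) = Real.sqrt (IV K X X').card * (B * Real.sqrt (Real.log X' + M)) := by ring
      _ ≤ Real.sqrt (1 + D) * ((X' : ℝ) ^ ε / 4) := mul_le_mul h2 h1 (by positivity) hs1.le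
      _ = _ := by ring
  have hl : 0 < Real.sqrt (1 + D) * (X' : ℝ) ^ ε / 4 := by positivity
  have hZ : ∀ n ∈ E, Real.sqrt (1 + D) * (X' : ℝ) ^ ε / 4 < |∑ p ∈ IS K X X', (H p (fun i => (n i : ZMod p)) - mn H p)| := by
    intro n hn
    have h1 := hEZ n hn
    rw [← hD] at h1
    have h2 : ∑ v ∈ IV K X X', w v * ((Ideal.absNorm v.asIdeal : ℝ) * val v (comb b n)) =
        ∑ p ∈ IS K X X', H p (fun i => (n i : ZMod p)) := by
      rw [hH, ← S_sum hval' b X X' n]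
      exact sum_congr rfl fun v _ => by ring
    rw [h2] at h1
    rw [sum_sub_distrib]
    have h3 := abs_sub_abs_le_abs_sub (∑ p ∈ IS K X X', H p (fun i => (n i : ZMod p))) (∑ p ∈ IS K X X', mn H p)
    linarith
  have h1 := markov (kbox N L) (fun n => ∑ p ∈ IS K X X', (H p (fun i => (n i : ZMod p)) - mn H p)) k _ hl E hE hZ
  have h2 := kmom1 k hk (Module.finrank ℚ K * B) (by positivity) (IS K X X') (fun p hp => (mem_filter.1 (IS_sub X X' hp)).2) X'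
    (fun p hp => (mem_Icc.1 (mem_filter.1 (IS_sub X X' hp)).1).2) H
    (fun p hp u => by rw [hH]; exact S_le hval' hB.le b X X' p hp u) T hT0 hT N L hL
  have h3 := h1.trans h2
  have hIS : ((IS K X X').card : ℝ) ≤ 1 + D := by
    have : ((IS K X X').card : ℝ) ≤ (IV K X X').card := by exact_mod_cast IS_card X X'
    rw [hD]
    linarith
  have e1 : (Real.sqrt (1 + D) * (X' : ℝ) ^ ε / 4) ^ (2 * k) = (1 + D) ^ k * (X' : ℝ) ^ (2 * k * ε) / 16 ^ k := by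
    rw [div_pow, mul_pow, pow_mul, Real.sq_sqrt (by linarith), ← Real.rpow_natCast ((X' : ℝ) ^ ε), ← Real.rpow_mul hX0.le, pow_mul (4 : ℝ)]
    congr 3
    · push_cast
      ring
    · norm_num
  rw [e1] at h3
  have hP : 0 ≤ ∏ i, (L i : ℝ) := prod_nonneg fun i _ => Nat.cast_nonneg _
  have h4 : (∏ i, (L i : ℝ)) * ((6 * (2 * k).factorial + 1) * ((2 * (Module.finrank ℚ K * B)) ^ 2 * (IS K X X').card) ^ k) ≤
      (∏ i, (L i : ℝ)) * ((6 * (2 * k).factorial + 1) * ((2 * (Module.finrank ℚ K * B)) ^ 2 * (1 + D)) ^ k) := by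
    refine mul_le_mul_of_nonneg_left (mul_le_mul_of_nonneg_left ?_ (by positivity)) hP
    exact pow_le_pow_left₀ (by positivity) (mul_le_mul_of_nonneg_left hIS (by positivity)) k
  have h5 := h3.trans h4
  rw [mul_pow, ← pow_mul] at h5
  have hq : 0 < (X' : ℝ) ^ (2 * k * ε) := Real.rpow_pos_of_pos hX0 _
  have hD1 : 0 < (1 + D) ^ k := by positivity
  rw [Real.rpow_neg hX0.le]
  have h6 : (E.card : ℝ) * ((1 + D) ^ k * (X' : ℝ) ^ (2 * k * ε) / 16 ^ k) =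
      ((E.card : ℝ) * (X' : ℝ) ^ (2 * k * ε)) * ((1 + D) ^ k / 16 ^ k) := by ring
  have h7 : (∏ i, (L i : ℝ)) * ((6 * (2 * k).factorial + 1) * ((2 * (Module.finrank ℚ K * B)) ^ (2 * k) * (1 + D) ^ k)) =
      ((∏ i, (L i : ℝ)) * ((6 * (2 * k).factorial + 1) * (2 * (Module.finrank ℚ K * B)) ^ (2 * k) * 16 ^ k)) * ((1 + D) ^ k / 16 ^ k) := by
    field_simp
  rw [h6, h7] at h5
  have h8 := le_of_mul_le_mul_right h5 (by positivity)
  have h9 : (E.card : ℝ) ≤ ((∏ i, (L i : ℝ)) * ((6 * (2 * k).factorial + 1) * (2 * (Module.finrank ℚ K * B)) ^ (2 * k) * 16 ^ k)) / (X' : ℝ) ^ (2 * k * ε) := by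
    rw [le_div_iff₀ hq]
    exact h8
  refine h9.trans (le_of_eq ?_)
  field_simp

lemma norm_parts (z : ℂ) (l : ℝ) (h : l < ‖z‖) : l / 2 < |z.re| ∨ l / 2 < |z.im| := by
  by_contra hno
  push Not at hno
  have h1 := Complex.norm_le_abs_re_add_abs_im z
  linarith [hno.1, hno.2]

/-- square-root cancellation in all intervals -/
theorem short (K : Type) [Field K] [NumberField K] (ι : Type) [Fintype ι] [DecidableEq ι] (B ε : ℝ) (a : ℕ) (hB : 0 < B) (hε : 0 < ε) :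
    ∃ c : ℝ, 0 < c ∧ ∃ C : ℝ, 0 ≤ C ∧ ∀ (b : Fin (Module.finrank ℚ K) → 𝓞 K), (∀ x : 𝓞 K, ∃ a : Fin (Module.finrank ℚ K) → ℤ, x = ∑ j, (a j : 𝓞 K) * b j) →
    ∀ val : HeightOneSpectrum (𝓞 K) → (ι → 𝓞 K) → ℝ, LocZ K ι B val →
    ∀ Ψ : ℕ → Finset (HeightOneSpectrum (𝓞 K) → ℂ), (∀ n, (Ψ n).card ≤ n ^ a) → (∀ n, ∀ ψ ∈ Ψ n, ∀ v, ‖ψ v‖ ≤ 1) →
    ∀ (N : ι × Fin (Module.finrank ℚ K) → ℤ) (L : ι × Fin (Module.finrank ℚ K) → ℕ) (T : ℝ), 0 < T → (∀ k, T ≤ L k) → ∀ X₀ : ℕ, 1 ≤ X₀ →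
    ∀ E : Finset (ι × Fin (Module.finrank ℚ K) → ℤ), E ⊆ kbox N L →
      (∀ n ∈ E, ∃ X X' : ℕ, ∃ ψ ∈ Ψ X', X₀ ≤ X' ∧ X ≤ X' ∧ (X' : ℝ) ≤ T ^ c ∧
        Real.sqrt (1 + (IV K X X').card) * (X' : ℝ) ^ ε <
          ‖∑ v ∈ IV K X X', ψ v * (((Ideal.absNorm v.asIdeal : ℝ) * val v (comb b n) : ℝ) : ℂ)‖) →
      (E.card : ℝ) ≤ C * (X₀ : ℝ) ^ (-(a : ℝ)) * ∏ i, (L i : ℝ) := by
  classical
  obtain ⟨k, hk⟩ := exists_nat_gt ((2 * a + 3) / (2 * ε))
  have hk0 : (0 : ℝ) < k := lt_of_le_of_lt (by positivity) hk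
  have hk1 : 1 ≤ k := by exact_mod_cast hk0
  rw [div_lt_iff₀ (by positivity)] at hk
  obtain ⟨X₁, hX₁3, C₁, hC₁, hbad⟩ := bad_one K ι B ε hB hε k hk1
  obtain ⟨d', hd'⟩ : ∃ d' : ℝ, d' = 2 * Fintype.card (ι × Fin (Module.finrank ℚ K)) := ⟨_, rfl⟩
  have hd'0 : 0 ≤ d' := by rw [hd']; positivity
  obtain ⟨c, hc⟩ : ∃ c : ℝ, c = 1 / (10 * k) := ⟨_, rfl⟩
  have hc0 : 0 < c := by rw [hc]; positivity
  obtain ⟨X₂, hX₂⟩ := exists_nat_gt ((d' ^ 2 + 1) ^ c)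
  obtain ⟨X₃, hX₃⟩ : ∃ X₃ : ℕ, X₃ = max X₁ X₂ := ⟨_, rfl⟩
  have hsum : Summable fun n : ℕ => 1 / (n : ℝ) ^ 2 := Real.summable_one_div_nat_pow.2 (by norm_num)
  obtain ⟨S₂, hS₂⟩ : ∃ S₂ : ℝ, S₂ = ∑' n : ℕ, 1 / (n : ℝ) ^ 2 := ⟨_, rfl⟩
  have hS₂0 : 0 ≤ S₂ := by rw [hS₂]; exact tsum_nonneg fun n => by positivity
  refine ⟨c, hc0, 4 * C₁ * S₂ + (X₃ : ℝ) ^ (a : ℝ), by positivity, fun b hb val hval Ψ hΨc hΨ1 N L T hT0 hTL X₀ hX₀ E hE hEZ => ?_⟩
  have hP : 0 ≤ ∏ i, (L i : ℝ) := prod_nonneg fun i _ => Nat.cast_nonneg _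
  have hX₀0 : (0 : ℝ) < X₀ := by exact_mod_cast hX₀
  by_cases hX : X₀ < X₃
  · have h1 : (E.card : ℝ) ≤ ∏ i, (L i : ℝ) := by
      have h2 := card_le_card hE
      rw [PX.kbox_card] at h2
      exact_mod_cast h2
    have h2 : 1 ≤ (X₃ : ℝ) ^ (a : ℝ) * (X₀ : ℝ) ^ (-(a : ℝ)) := by
      rw [Real.rpow_neg hX₀0.le, ← div_eq_mul_inv, one_le_div (Real.rpow_pos_of_pos hX₀0 _)]
      exact Real.rpow_le_rpow hX₀0.le (by exact_mod_cast hX.le) (Nat.cast_nonneg _)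
    have h3 : 0 ≤ 4 * C₁ * S₂ * (X₀ : ℝ) ^ (-(a : ℝ)) := by positivity
    calc (E.card : ℝ) ≤ 1 * ∏ i, (L i : ℝ) := by rw [one_mul]; exact h1
      _ ≤ _ := mul_le_mul_of_nonneg_right (by linarith) hP
  · push Not at hX
    have hX1 : X₁ ≤ X₀ := (le_max_left _ _).trans (hX₃ ▸ hX)
    have hX2 : X₂ ≤ X₀ := (le_max_right _ _).trans (hX₃ ▸ hX)
    -- the condition on T
    have hT2 : ∀ X' : ℕ, X₀ ≤ X' → (X' : ℝ) ≤ T ^ c → d' * (X' : ℝ) ^ (5 * k) ≤ T := by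
      intro X' h1 h2
      have hX'0 : (0 : ℝ) < X' := hX₀0.trans_le (by exact_mod_cast h1)
      have h3 : (d' ^ 2 + 1) ^ c < T ^ c := by
        refine hX₂.trans_le (le_trans ?_ h2)
        exact_mod_cast hX2.trans h1
      have h4 : d' ^ 2 + 1 < T := (Real.rpow_lt_rpow_iff (by positivity) hT0.le hc0).1 h3
      have h5 : (X' : ℝ) ^ (5 * k) ≤ Real.sqrt T := by
        have h6 : ((X' : ℝ)) ^ (5 * k) ≤ (T ^ c) ^ (5 * k) := pow_le_pow_left₀ hX'0.le h2 _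
        refine h6.trans (le_of_eq ?_)
        rw [← Real.rpow_natCast, ← Real.rpow_mul hT0.le, Real.sqrt_eq_rpow]
        congr 1
        rw [hc]
        push_cast
        field_simp
        norm_num
      have h6 : d' ≤ Real.sqrt T := by
        refine Real.le_sqrt_of_sq_le ?_
        linarith
      calc d' * (X' : ℝ) ^ (5 * k) ≤ Real.sqrt T * Real.sqrt T := mul_le_mul h6 h5 (by positivity) (Real.sqrt_nonneg _)
        _ = T := Real.mul_self_sqrt hT0.le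
    -- the exceptions for one X'
    obtain ⟨Q, hQ⟩ : ∃ Q : ℕ → Finset (ι × Fin (Module.finrank ℚ K) → ℤ), Q = fun X' => E.filter fun n => ∃ X : ℕ, ∃ ψ ∈ Ψ X', X₀ ≤ X' ∧ X ≤ X' ∧ (X' : ℝ) ≤ T ^ c ∧
        Real.sqrt (1 + (IV K X X').card) * (X' : ℝ) ^ ε <
          ‖∑ v ∈ IV K X X', ψ v * (((Ideal.absNorm v.asIdeal : ℝ) * val v (comb b n) : ℝ) : ℂ)‖ := ⟨_, rfl⟩
    have hQc : ∀ X' : ℕ, X₀ ≤ X' → ((Q X').card : ℝ) ≤ 4 * C₁ * (X₀ : ℝ) ^ (-(a : ℝ)) * (1 / (X' : ℝ) ^ 2) * ∏ i, (L i : ℝ) := by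
      intro X' hX'
      have hX'0 : (0 : ℝ) < X' := hX₀0.trans_le (by exact_mod_cast hX')
      have hX'1 : (1 : ℝ) ≤ X' := by
        have : 1 ≤ X' := hX₀.trans hX'
        exact_mod_cast this
      by_cases hTc : (X' : ℝ) ≤ T ^ c
      · obtain ⟨ER, hER⟩ : ∃ ER : ℕ → (HeightOneSpectrum (𝓞 K) → ℂ) → Finset (ι × Fin (Module.finrank ℚ K) → ℤ), ER = fun X ψ =>
            (kbox N L).filter fun n => Real.sqrt (1 + (IV K X X').card) * (X' : ℝ) ^ ε / 2 <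
              |∑ v ∈ IV K X X', (ψ v).re * ((Ideal.absNorm v.asIdeal : ℝ) * val v (comb b n))| := ⟨_, rfl⟩
        obtain ⟨EI, hEI⟩ : ∃ EI : ℕ → (HeightOneSpectrum (𝓞 K) → ℂ) → Finset (ι × Fin (Module.finrank ℚ K) → ℤ), EI = fun X ψ =>
            (kbox N L).filter fun n => Real.sqrt (1 + (IV K X X').card) * (X' : ℝ) ^ ε / 2 <
              |∑ v ∈ IV K X X', (ψ v).im * ((Ideal.absNorm v.asIdeal : ℝ) * val v (comb b n))| := ⟨_, rfl⟩
        have hsub : Q X' ⊆ (range (X' + 1) ×ˢ Ψ X').biUnion fun x => ER x.1 x.2 ∪ EI x.1 x.2 := by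
          intro n hn
          rw [hQ] at hn
          obtain ⟨hnE, X, ψ, hψ, -, hXX, -, hlt⟩ := mem_filter.1 hn
          rw [mem_biUnion]
          refine ⟨(X, ψ), mem_product.2 ⟨mem_range.2 (by omega), hψ⟩, ?_⟩
          rw [mem_union, hER, hEI]
          have hnb := hE hnE
          rcases norm_parts _ _ hlt with h1 | h1
          · left
            rw [mem_filter]
            refine ⟨hnb, ?_⟩
            rw [Complex.re_sum] at h1
            have h2 : ∀ v, (ψ v * (((Ideal.absNorm v.asIdeal : ℝ) * val v (comb b n) : ℝ) : ℂ)).re = (ψ v).re * ((Ideal.absNorm v.asIdeal : ℝ) * val v (comb b n)) := by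
              intro v
              rw [Complex.mul_re, Complex.ofReal_re, Complex.ofReal_im, mul_zero, sub_zero]
            rw [sum_congr rfl fun v _ => h2 v] at h1
            exact h1
          · right
            rw [mem_filter]
            refine ⟨hnb, ?_⟩
            rw [Complex.im_sum] at h1
            have h2 : ∀ v, (ψ v * (((Ideal.absNorm v.asIdeal : ℝ) * val v (comb b n) : ℝ) : ℂ)).im = (ψ v).im * ((Ideal.absNorm v.asIdeal : ℝ) * val v (comb b n)) := by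
              intro v
              rw [Complex.mul_im, Complex.ofReal_re, Complex.ofReal_im, mul_zero, zero_add]
            rw [sum_congr rfl fun v _ => h2 v] at h1
            exact h1
        have hTX := hT2 X' hX' hTc
        rw [hd'] at hTX
        have hone : ∀ x ∈ range (X' + 1) ×ˢ Ψ X', ((ER x.1 x.2 ∪ EI x.1 x.2).card : ℝ) ≤ 2 * (C₁ * (X' : ℝ) ^ (-(2 * k * ε)) * ∏ i, (L i : ℝ)) := by
          rintro ⟨X, ψ⟩ hx
          have hψ := (mem_product.1 hx).2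
          have h1 : ((ER X ψ).card : ℝ) ≤ C₁ * (X' : ℝ) ^ (-(2 * k * ε)) * ∏ i, (L i : ℝ) := by
            refine hbad b hb val hval (fun v => (ψ v).re) (fun v => (Complex.abs_re_le_norm _).trans (hΨ1 X' ψ hψ v)) X X' (hX1.trans hX') T hT0 hTX N L hTL _
              (by rw [hER]; exact filter_subset _ _) ?_
            intro n hn
            rw [hER] at hn
            exact (mem_filter.1 hn).2
          have h2 : ((EI X ψ).card : ℝ) ≤ C₁ * (X' : ℝ) ^ (-(2 * k * ε)) * ∏ i, (L i : ℝ) := by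
            refine hbad b hb val hval (fun v => (ψ v).im) (fun v => (Complex.abs_im_le_norm _).trans (hΨ1 X' ψ hψ v)) X X' (hX1.trans hX') T hT0 hTX N L hTL _
              (by rw [hEI]; exact filter_subset _ _) ?_
            intro n hn
            rw [hEI] at hn
            exact (mem_filter.1 hn).2
          have h3 : ((ER X ψ ∪ EI X ψ).card : ℝ) ≤ (ER X ψ).card + (EI X ψ).card := by exact_mod_cast card_union_le _ _
          show ((ER X ψ ∪ EI X ψ).card : ℝ) ≤ _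
          linarith
        have h1 : ((Q X').card : ℝ) ≤ ∑ x ∈ range (X' + 1) ×ˢ Ψ X', ((ER x.1 x.2 ∪ EI x.1 x.2).card : ℝ) := by
          have := (card_le_card hsub).trans card_biUnion_le
          exact_mod_cast this
        refine h1.trans ((sum_le_sum hone).trans ?_)
        rw [sum_const, card_product, card_range, nsmul_eq_mul]
        have h2 : (((X' + 1) * (Ψ X').card : ℕ) : ℝ) ≤ 2 * (X' : ℝ) ^ ((a : ℝ) + 1) := by
          push_cast
          have h3 : ((Ψ X').card : ℝ) ≤ (X' : ℝ) ^ a := by exact_mod_cast hΨc X'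
          rw [Real.rpow_add hX'0, Real.rpow_natCast, Real.rpow_one]
          calc ((X' : ℝ) + 1) * (Ψ X').card ≤ (2 * X') * (X' : ℝ) ^ a := mul_le_mul (by linarith) h3 (Nat.cast_nonneg _) (by positivity)
            _ = _ := by ring
        have h4 : 0 ≤ 2 * (C₁ * (X' : ℝ) ^ (-(2 * k * ε)) * ∏ i, (L i : ℝ)) := by positivity
        refine (mul_le_mul_of_nonneg_right h2 h4).trans ?_
        have h5 : (X' : ℝ) ^ ((a : ℝ) + 1) * (X' : ℝ) ^ (-(2 * k * ε)) ≤ (X₀ : ℝ) ^ (-(a : ℝ)) * (1 / (X' : ℝ) ^ 2) := by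
          rw [← Real.rpow_add hX'0]
          have h6 : (a : ℝ) + 1 + -(2 * k * ε) ≤ -(a : ℝ) + -2 := by
            have : (2 * (a : ℝ) + 3) < k * (2 * ε) := hk
            linarith
          refine (Real.rpow_le_rpow_of_exponent_le hX'1 h6).trans ?_
          rw [Real.rpow_add hX'0]
          refine mul_le_mul ?_ (le_of_eq ?_) (by positivity) (by positivity)
          · exact Real.rpow_le_rpow_of_nonpos hX₀0 (by exact_mod_cast hX') (by
              have : (0 : ℝ) ≤ a := Nat.cast_nonneg _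
              linarith)
          · rw [Real.rpow_neg hX'0.le, one_div]
            norm_num
        calc 2 * (X' : ℝ) ^ ((a : ℝ) + 1) * (2 * (C₁ * (X' : ℝ) ^ (-(2 * k * ε)) * ∏ i, (L i : ℝ))) =
              4 * C₁ * ((X' : ℝ) ^ ((a : ℝ) + 1) * (X' : ℝ) ^ (-(2 * k * ε))) * ∏ i, (L i : ℝ) := by ring
          _ ≤ 4 * C₁ * ((X₀ : ℝ) ^ (-(a : ℝ)) * (1 / (X' : ℝ) ^ 2)) * ∏ i, (L i : ℝ) :=
              mul_le_mul_of_nonneg_right (mul_le_mul_of_nonneg_left h5 (by positivity)) hP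
          _ = _ := by ring
      · have h1 : Q X' = ∅ := by
          rw [hQ]
          refine filter_eq_empty_iff.2 ?_
          rintro n _ ⟨X, ψ, _, _, _, h2, _⟩
          exact hTc h2
        rw [h1, card_empty, Nat.cast_zero]
        positivity
    -- the union over X'
    obtain ⟨Z, hZ⟩ := exists_nat_ge (T ^ c)
    have hsub : E ⊆ (Icc X₀ Z).biUnion Q := by
      intro n hn
      obtain ⟨X, X', ψ, hψ, h1, h2, h3, h4⟩ := hEZ n hn
      rw [mem_biUnion]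
      refine ⟨X', mem_Icc.2 ⟨h1, ?_⟩, ?_⟩
      · exact_mod_cast h3.trans hZ
      · rw [hQ]
        exact mem_filter.2 ⟨hn, X, ψ, hψ, h1, h2, h3, h4⟩
    have h1 : (E.card : ℝ) ≤ ∑ X' ∈ Icc X₀ Z, ((Q X').card : ℝ) := by
      have := (card_le_card hsub).trans card_biUnion_le
      exact_mod_cast this
    refine h1.trans ((sum_le_sum fun X' hX' => hQc X' (mem_Icc.1 hX').1).trans ?_)
    rw [← sum_mul, ← mul_sum]
    refine mul_le_mul_of_nonneg_right ?_ hP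
    have h2 : ∑ X' ∈ Icc X₀ Z, 1 / (X' : ℝ) ^ 2 ≤ S₂ := by
      rw [hS₂]
      exact hsum.sum_le_tsum _ fun n _ => by positivity
    have h3 : 0 ≤ (X₃ : ℝ) ^ (a : ℝ) * (X₀ : ℝ) ^ (-(a : ℝ)) := by positivity
    calc 4 * C₁ * (X₀ : ℝ) ^ (-(a : ℝ)) * ∑ X' ∈ Icc X₀ Z, 1 / (X' : ℝ) ^ 2 ≤ 4 * C₁ * (X₀ : ℝ) ^ (-(a : ℝ)) * S₂ :=
          mul_le_mul_of_nonneg_left h2 (by positivity)
      _ ≤ _ := by linarith

end Q282.SH
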